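import Mathlib

set_option autoImplicit false

open Finset

namespace Pool.Agent.Work.MP_499dc6_lc.SizeCancel

lemma choose_aux (n r j : ℕ) (hj : 1 ≤ j) (hjr : j ≤ r) (hjn : 2 * j ≤ n) :
    (n - 2 * j).choose (r - j) * 4 ^ j ≤ n * n.choose r := by
  have h1 := Nat.four_pow_le_two_mul_self_mul_centralBinom j hj
  have h2 : (2 * j).choose j * (n - 2 * j).choose (r - j) ≤ n.choose r := by
    have h3 := Nat.add_choose_eq (2 * j) (n - 2 * j) r
    rw [Nat.add_sub_cancel' hjn] at h3
    rw [h3]
    have hmem : (j, r - j) ∈ antidiagonal r := by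
      rw [Finset.HasAntidiagonal.mem_antidiagonal]
      omega
    exact Finset.single_le_sum (f := fun ij : ℕ × ℕ => (2 * j).choose ij.1 *
      (n - 2 * j).choose ij.2) (fun _ _ => Nat.zero_le _) hmem
  rw [Nat.centralBinom_eq_two_mul_choose] at h1
  calc (n - 2 * j).choose (r - j) * 4 ^ j
      ≤ (n - 2 * j).choose (r - j) * (2 * j * (2 * j).choose j) := Nat.mul_le_mul_left _ h1
    _ = 2 * j * ((2 * j).choose j * (n - 2 * j).choose (r - j)) := by ring
    _ ≤ n * n.choose r := Nat.mul_le_mul hjn h2

/-- Multiplicity bound: the number of ways to write `m` as an ordered sum of two sets of cells that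
are injective under `π`, of sizes `r` and `n - r`, with overlap at least `k`. -/
lemma mult {E : Type*} [Fintype E] [DecidableEq E] {n : ℕ} (π : E → Fin n) (enc : E → ℕ)
    (henc : Function.Injective enc) (P : Finset (Finset E × Finset E)) (m : E → ℕ) (r k : ℕ)
    (hr : r ≤ n) (hk : 1 ≤ k)
    (h1 : ∀ p ∈ P, Set.InjOn π (p.1 : Set E)) (h2 : ∀ p ∈ P, Set.InjOn π (p.2 : Set E))
    (h3 : ∀ p ∈ P, p.1.card = r) (h4 : ∀ p ∈ P, p.2.card = n - r)
    (h5 : ∀ p ∈ P, ∀ e, (if e ∈ p.1 then 1 else 0) + (if e ∈ p.2 then 1 else 0) = m e)
    (h6 : ∀ p ∈ P, k ≤ ((p.1.image π) ∩ (p.2.image π)).card) :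
    P.card * 2 ^ k ≤ n * n.choose r := by
  classical
  rcases P.eq_empty_or_nonempty with rfl | ⟨p₀, hp₀⟩
  · simp
  -- degrees
  set deg : Fin n → ℕ := fun i => ∑ e ∈ univ.filter (fun e => π e = i), m e with hdeg
  have hdegp : ∀ p ∈ P, ∀ i, deg i
      = (if i ∈ p.1.image π then 1 else 0) + (if i ∈ p.2.image π then 1 else 0) := by
    intro p hp i
    have aux : ∀ S : Finset E, Set.InjOn π (S : Set E) →
        ∑ e ∈ univ.filter (fun e => π e = i), (if e ∈ S then 1 else 0)
          = if i ∈ S.image π then 1 else 0 := by
      intro S hS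
      rw [Finset.sum_ite, Finset.sum_const_zero, add_zero, Finset.sum_const, smul_eq_mul, mul_one]
      split_ifs with hi
      · rw [mem_image] at hi
        obtain ⟨e, he, hei⟩ := hi
        rw [card_eq_one]
        refine ⟨e, ?_⟩
        ext e'
        simp only [mem_filter, mem_univ, true_and, mem_singleton]
        constructor
        · rintro ⟨h, h'⟩
          exact hS h' he (h.trans hei.symm)
        · rintro rfl
          exact ⟨hei, he⟩
      · rw [card_eq_zero, filter_eq_empty_iff]
        intro e he heS
        apply hi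
        rw [mem_image]
        simp only [mem_filter, mem_univ, true_and] at he
        exact ⟨e, heS, he⟩
    simp only [hdeg]
    rw [← aux p.1 (h1 p hp), ← aux p.2 (h2 p hp), ← Finset.sum_add_distrib]
    refine Finset.sum_congr rfl fun e _ => ?_
    rw [h5 p hp e]
  set D2 : Finset (Fin n) := univ.filter (fun i => deg i = 2) with hD2
  set D1 : Finset (Fin n) := univ.filter (fun i => deg i = 1) with hD1
  have hinter : ∀ p ∈ P, (p.1.image π) ∩ (p.2.image π) = D2 := by
    intro p hp
    ext i
    have := hdegp p hp i
    simp only [mem_inter, hD2, mem_filter, mem_univ, true_and]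
    split_ifs at this with ha hb hb <;> simp [ha, hb, this]
  have hmem1 : ∀ p ∈ P, ∀ i, i ∈ D1 ↔ (i ∈ p.1.image π ∧ i ∉ p.2.image π) ∨
      (i ∉ p.1.image π ∧ i ∈ p.2.image π) := by
    intro p hp i
    have := hdegp p hp i
    simp only [hD1, mem_filter, mem_univ, true_and]
    split_ifs at this with ha hb hb <;> simp [ha, hb, this]
  have hunion : ∀ p ∈ P, (p.1.image π) ∪ (p.2.image π) = D1 ∪ D2 := by
    intro p hp
    ext i
    rw [mem_union, mem_union, hmem1 p hp i, ← hinter p hp, mem_inter]
    tauto
  have hdisj : Disjoint D1 D2 := by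
    rw [Finset.disjoint_left]
    intro i hi hi'
    simp only [hD1, hD2, mem_filter, mem_univ, true_and] at hi hi'
    omega
  set j := D2.card with hj
  have hc1 : ∀ p ∈ P, (p.1.image π).card = r := fun p hp => by
    rw [card_image_of_injOn (h1 p hp), h3 p hp]
  have hc2 : ∀ p ∈ P, (p.2.image π).card = n - r := fun p hp => by
    rw [card_image_of_injOn (h2 p hp), h4 p hp]
  have hD1card : D1.card + 2 * j = n := by
    have e1 := card_union_add_card_inter (p₀.1.image π) (p₀.2.image π)
    rw [hunion p₀ hp₀, hinter p₀ hp₀, hc1 p₀ hp₀, hc2 p₀ hp₀, card_union_of_disjoint hdisj] at e1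
    omega
  have hjr : j ≤ r := by
    rw [hj, ← hinter p₀ hp₀, ← hc1 p₀ hp₀]
    exact card_le_card inter_subset_left
  have hkj : k ≤ j := by
    rw [hj, ← hinter p₀ hp₀]
    exact h6 p₀ hp₀
  -- the injection
  set flag : Finset E × Finset E → Finset (Fin n) := fun p =>
    D2.filter (fun i => ∃ e1 ∈ p.1, ∃ e2 ∈ p.2, π e1 = i ∧ π e2 = i ∧ enc e1 ≤ enc e2) with hflag
  have hcard : P.card ≤ ((powersetCard (r - j) D1) ×ˢ (powerset D2)).card := by
    apply card_le_card_of_injOn (fun p => ((p.1.image π) \ D2, flag p))
    · intro p hp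
      rw [mem_coe] at hp
      rw [mem_coe, mem_product, mem_powersetCard, mem_powerset]
      refine ⟨⟨?_, ?_⟩, filter_subset _ _⟩
      · intro i hi
        rw [mem_sdiff] at hi
        rw [hmem1 p hp i]
        left
        refine ⟨hi.1, fun hc => hi.2 ?_⟩
        rw [← hinter p hp, mem_inter]
        exact ⟨hi.1, hc⟩
      · simp only
        rw [card_sdiff_of_subset, hc1 p hp]
        rw [← hinter p hp]
        exact inter_subset_left
    · intro p hp q hq hpq
      rw [mem_coe] at hp hq
      simp only [Prod.mk.injEq] at hpq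
      obtain ⟨hpq1, hpq2⟩ := hpq
      -- one inclusion, symmetric
      have main : ∀ p ∈ P, ∀ q ∈ P, (p.1.image π) \ D2 = (q.1.image π) \ D2 → flag p = flag q →
          p.1 ⊆ q.1 := by
        intro p hp q hq hpq1 hpq2 e he
        set i := π e with hi
        have hip : i ∈ p.1.image π := mem_image_of_mem π he
        by_cases hi2 : i ∈ D2
        · -- double row
          have hi2p := hi2
          rw [← hinter p hp, mem_inter] at hi2p
          have hi2q := hi2
          rw [← hinter q hq, mem_inter] at hi2q
          obtain ⟨e2, he2, he2i⟩ := mem_image.1 hi2p.2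
          obtain ⟨f1, hf1, hf1i⟩ := mem_image.1 hi2q.1
          obtain ⟨f2, hf2, hf2i⟩ := mem_image.1 hi2q.2
          by_contra hne
          have hmeP := h5 p hp e
          have hmeQ := h5 q hq e
          rw [if_pos he] at hmeP
          rw [if_neg hne] at hmeQ
          have heq2 : e ∈ q.2 := by
            by_contra hc
            rw [if_neg hc] at hmeQ
            omega
          have hef2 : e = f2 := h2 q hq heq2 hf2 hf2i.symm
          have hep2 : e ∉ p.2 := by
            intro hc
            rw [if_pos hc] at hmeP
            rw [if_pos heq2] at hmeQ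
            omega
          have hee2 : e ≠ e2 := by
            rintro rfl; exact hep2 he2
          have hme2P := h5 p hp e2
          have hme2Q := h5 q hq e2
          rw [if_pos he2] at hme2P
          have he2q2 : e2 ∉ q.2 := by
            intro hc
            have : e2 = f2 := h2 q hq hc hf2 (he2i.trans hf2i.symm)
            exact hee2 (hef2.trans this.symm)
          have he2q1 : e2 ∈ q.1 := by
            by_contra hc
            rw [if_neg hc, if_neg he2q2] at hme2Q
            omega
          have he2f1 : e2 = f1 := h1 q hq he2q1 hf1 (he2i.trans hf1i.symm)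
          have hencne : enc e ≠ enc e2 := fun hc => hee2 (henc hc)
          -- flags
          have hfp : i ∈ flag p ↔ enc e ≤ enc e2 := by
            simp only [hflag, mem_filter]
            constructor
            · rintro ⟨_, a, ha, b, hb, hai, hbi, hab⟩
              have ea : a = e := h1 p hp ha he hai
              have eb : b = e2 := h2 p hp hb he2 (hbi.trans he2i.symm)
              rw [ea, eb] at hab
              exact hab
            · intro hle
              exact ⟨hi2, e, he, e2, he2, rfl, he2i, hle⟩
          have hfq : i ∈ flag q ↔ enc e2 ≤ enc e := by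
            simp only [hflag, mem_filter]
            constructor
            · rintro ⟨_, a, ha, b, hb, hai, hbi, hab⟩
              have ea : a = e2 := h1 q hq ha he2q1 (hai.trans he2i.symm)
              have eb : b = e := h2 q hq hb heq2 hbi
              rw [ea, eb] at hab
              exact hab
            · intro hle
              exact ⟨hi2, e2, he2q1, e, heq2, he2i, rfl, hle⟩
          rw [hpq2, hfq] at hfp
          omega
        · have hiq : i ∈ q.1.image π := by
            have : i ∈ (q.1.image π) \ D2 := by
              rw [← hpq1, mem_sdiff]; exact ⟨hip, hi2⟩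
            exact (mem_sdiff.1 this).1
          have hip2 : i ∉ p.2.image π := fun hc => hi2 (by
            rw [← hinter p hp, mem_inter]; exact ⟨hip, hc⟩)
          have hiq2 : i ∉ q.2.image π := fun hc => hi2 (by
            rw [← hinter q hq, mem_inter]; exact ⟨hiq, hc⟩)
          have hep2 : e ∉ p.2 := fun hc => hip2 (mem_image_of_mem π hc)
          have heq2 : e ∉ q.2 := fun hc => hiq2 (mem_image_of_mem π hc)
          have hmeP := h5 p hp e
          have hmeQ := h5 q hq e
          rw [if_pos he, if_neg hep2] at hmeP
          rw [if_neg heq2] at hmeQ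
          by_contra hc
          rw [if_neg hc] at hmeQ
          omega
      have e1 : p.1 = q.1 :=
        Subset.antisymm (main p hp q hq hpq1 hpq2) (main q hq p hp hpq1.symm hpq2.symm)
      have e2 : p.2 = q.2 := by
        ext e
        have hmeP := h5 p hp e
        have hmeQ := h5 q hq e
        rw [e1] at hmeP
        by_cases ha : e ∈ p.2 <;> by_cases hb : e ∈ q.2
        · simp [ha, hb]
        · rw [if_pos ha] at hmeP; rw [if_neg hb] at hmeQ; omega
        · rw [if_neg ha] at hmeP; rw [if_pos hb] at hmeQ; omega
        · simp [ha, hb]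
      exact Prod.ext e1 e2
  rw [card_product, card_powersetCard, card_powerset] at hcard
  have hD1' : D1.card = n - 2 * j := by omega
  rw [hD1', ← hj] at hcard
  have haux := choose_aux n r j (hk.trans hkj) hjr (by omega)
  calc P.card * 2 ^ k ≤ ((n - 2 * j).choose (r - j) * 2 ^ j) * 2 ^ j :=
        Nat.mul_le_mul hcard (Nat.pow_le_pow_right (by norm_num) hkj)
    _ = (n - 2 * j).choose (r - j) * 4 ^ j := by
        rw [mul_assoc, ← pow_add, ← two_mul, pow_mul]
        norm_num
    _ ≤ n * n.choose r := haux

end Pool.Agent.Work.MP_499dc6_lc.SizeCancel
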