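import Pool.Agent.Work.MP_499dc6_lc.SizeCancel.Descent
import Pool.Agent.Work.MP_499dc6_lc.SizeCancel.Mult

set_option autoImplicit false

open Finset
open scoped Nat

namespace Pool.Agent.Work.MP_499dc6_lc.SizeCancel

variable {n : ℕ}

/-- the cells of the graph of `σ` in the rows of `R` -/
def cells (σ : Equiv.Perm (Fin n)) (R : Finset (Fin n)) : Finset (Fin n × Fin n) :=
  R.image (fun k => (k, σ k))

lemma mem_cells (σ : Equiv.Perm (Fin n)) (R : Finset (Fin n)) (e : Fin n × Fin n) :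
    e ∈ cells σ R ↔ e.1 ∈ R ∧ σ e.1 = e.2 := by
  obtain ⟨k, l⟩ := e
  simp only [cells, mem_image, Prod.mk.injEq]
  constructor
  · rintro ⟨a, ha, rfl, rfl⟩
    exact ⟨ha, rfl⟩
  · rintro ⟨h1, h2⟩
    exact ⟨k, h1, rfl, h2⟩

lemma part_apply' (σ : Equiv.Perm (Fin n)) (R : Finset (Fin n)) (e : Fin n × Fin n) :
    part σ R e = if e ∈ cells σ R then 1 else 0 := by
  obtain ⟨k, l⟩ := e
  rw [part_apply]
  simp only [mem_cells]

lemma cells_fst_inj (σ : Equiv.Perm (Fin n)) (R : Finset (Fin n)) :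
    Set.InjOn Prod.fst (cells σ R : Set (Fin n × Fin n)) := by
  intro a ha b hb hab
  rw [mem_coe, mem_cells] at ha hb
  exact Prod.ext hab (by rw [← ha.2, ← hb.2, hab])

lemma cells_snd_inj (σ : Equiv.Perm (Fin n)) (R : Finset (Fin n)) :
    Set.InjOn Prod.snd (cells σ R : Set (Fin n × Fin n)) := by
  intro a ha b hb hab
  rw [mem_coe, mem_cells] at ha hb
  refine Prod.ext ?_ hab
  apply σ.injective
  rw [ha.2, hb.2, hab]

lemma cells_card (σ : Equiv.Perm (Fin n)) (R : Finset (Fin n)) : (cells σ R).card = R.card := by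
  unfold cells
  apply card_image_of_injective
  intro a b hab
  exact (Prod.mk.inj hab).1

lemma cells_fst (σ : Equiv.Perm (Fin n)) (R : Finset (Fin n)) :
    (cells σ R).image Prod.fst = R := by
  ext k
  simp only [mem_image]
  constructor
  · rintro ⟨e, he, rfl⟩
    exact ((mem_cells _ _ _).1 he).1
  · intro hk
    exact ⟨(k, σ k), (mem_cells _ _ _).2 ⟨hk, rfl⟩, rfl⟩

/-- permutations that agree on `X` -/
lemma card_agree (Q : Finset (Equiv.Perm (Fin n))) (X : Finset (Fin n))
    (hQ : ∀ σ ∈ Q, ∀ τ ∈ Q, ∀ k ∈ X, σ k = τ k) : Q.card ≤ (n - X.card)! := by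
  classical
  rcases Q.eq_empty_or_nonempty with rfl | ⟨σ₀, h₀⟩
  · simp
  have hfix : ∀ σ ∈ Q, ∀ k ∈ X, (σ₀⁻¹ * σ) k = k := by
    intro σ hσ k hk
    rw [Equiv.Perm.mul_apply, ← hQ σ₀ h₀ σ hσ k hk]
    exact σ₀.symm_apply_apply k
  have hiff : ∀ σ ∈ Q, ∀ x, x ∉ X ↔ (σ₀⁻¹ * σ) x ∉ X := by
    intro σ hσ x
    constructor
    · intro hx hc
      have h1 := hfix σ hσ _ hc
      have h2 := (σ₀⁻¹ * σ).injective h1
      rw [h2] at hc
      exact hx hc
    · intro hx hc
      apply hx
      rw [hfix σ hσ x hc]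
      exact hc
  have hcardP : Fintype.card (Equiv.Perm {x : Fin n // x ∉ X}) = (n - X.card)! := by
    rw [Fintype.card_perm]
    congr 1
    rw [Fintype.card_subtype_compl, Fintype.card_fin, Fintype.card_coe]
  rw [← hcardP, ← Finset.card_univ]
  refine Finset.card_le_card_of_injOn
    (fun σ => if h : σ ∈ Q then (σ₀⁻¹ * σ).subtypePerm (fun x => (hiff σ h x).symm) else 1)
    (fun _ _ => by simp) ?_
  intro σ hσ τ hτ hst
  rw [mem_coe] at hσ hτ
  simp only [hσ, hτ, dif_pos] at hst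
  have key : σ₀⁻¹ * σ = σ₀⁻¹ * τ := by
    ext x
    by_cases hx : x ∈ X
    · rw [hfix σ hσ x hx, hfix τ hτ x hx]
    · have := congrArg (fun p : Equiv.Perm {x : Fin n // x ∉ X} => ((p ⟨x, hx⟩ : Fin n) : ℕ)) hst
      simpa [Equiv.Perm.subtypePerm_apply] using this
  exact mul_left_cancel key

lemma fiber_bound (P : Finset (Equiv.Perm (Fin n))) (Rf : Equiv.Perm (Fin n) → Finset (Fin n))
    (t : ℕ) (ht : ∀ σ ∈ P, (Rf σ).card = t) :
    P.card ≤ (n - t)! * (P.image (fun σ => cells σ (Rf σ))).card := by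
  classical
  apply Finset.card_le_mul_card_image
  intro S hS
  rw [mem_image] at hS
  obtain ⟨σ₀, hσ₀, rfl⟩ := hS
  have hrow : ∀ σ ∈ P.filter (fun σ => cells σ (Rf σ) = cells σ₀ (Rf σ₀)), Rf σ = Rf σ₀ := by
    intro σ hσ
    rw [mem_filter] at hσ
    rw [← cells_fst σ (Rf σ), hσ.2, cells_fst]
  have := card_agree (P.filter (fun σ => cells σ (Rf σ) = cells σ₀ (Rf σ₀))) (Rf σ₀) ?_
  · rw [ht σ₀ hσ₀] at this
    exact this
  · intro σ hσ τ hτ k hk
    have h1 := hrow σ hσ
    have h2 := hrow τ hτ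
    rw [mem_filter] at hσ hτ
    have h3 : (k, σ k) ∈ cells σ (Rf σ) := (mem_cells _ _ _).2 ⟨by rw [h1]; exact hk, rfl⟩
    rw [hσ.2, ← hτ.2, mem_cells] at h3
    exact h3.2.symm

/-- number of sets of size `< k` -/
def V (n k : ℕ) : ℕ := ((univ : Finset (Finset (Fin n))).filter (fun Z => Z.card < k)).card

lemma near_sets (X : Finset (Fin n)) (r k : ℕ) (hX : X.card = r) (Y : Finset (Finset (Fin n)))
    (hY : ∀ y ∈ Y, y.card = n - r ∧ (X ∩ y).card < k) : Y.card ≤ V n k * V n k := by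
  classical
  unfold V
  rw [← card_product]
  have hrn : r ≤ n := by
    rw [← hX]; simpa using card_le_univ X
  apply card_le_card_of_injOn (fun y => (X ∩ y, (X ∪ y)ᶜ))
  · intro y hy
    rw [mem_coe] at hy
    obtain ⟨h1, h2⟩ := hY y hy
    rw [mem_coe, mem_product, mem_filter, mem_filter]
    refine ⟨⟨mem_univ _, h2⟩, mem_univ _, ?_⟩
    have e1 := card_union_add_card_inter X y
    have e2 : (X ∪ y)ᶜ.card = n - (X ∪ y).card := by
      rw [card_compl, Fintype.card_fin]
    have e3 : (X ∪ y).card ≤ n := by simpa using card_le_univ (X ∪ y)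
    simp only
    omega
  · intro y _ z _ hyz
    simp only [Prod.mk.injEq] at hyz
    obtain ⟨h1, h2⟩ := hyz
    ext x
    have e1 : x ∈ X ∩ y ↔ x ∈ X ∩ z := by rw [h1]
    have e2 : x ∈ (X ∪ y)ᶜ ↔ x ∈ (X ∪ z)ᶜ := by rw [h2]
    simp only [mem_inter, mem_compl, mem_union] at e1 e2
    tauto

lemma fixed_type (X Y : Finset (Fin n)) (t : ℕ) (hX : X.card = t) (hY : Y.card = t)
    (Q : Finset (Finset (Fin n × Fin n)))
    (hQ : ∀ T ∈ Q, Set.InjOn Prod.fst (T : Set (Fin n × Fin n)) ∧
      Set.InjOn Prod.snd (T : Set (Fin n × Fin n)) ∧ T.image Prod.fst = X ∧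
      T.image Prod.snd = Y) : Q.card ≤ t ! := by
  classical
  have hcard : Fintype.card (X ↪ Y) = t ! := by
    rw [Fintype.card_embedding_eq, Fintype.card_coe, Fintype.card_coe, hX, hY,
      Nat.descFactorial_self]
  rw [← hcard, ← Finset.card_univ]
  -- for each `T ∈ Q` choose the column
  have hcol : ∀ T ∈ Q, ∀ x : X, ∃ y : Y, ((x : Fin n), (y : Fin n)) ∈ T := by
    intro T hT x
    obtain ⟨_, _, h3, h4⟩ := hQ T hT
    have hx : (x : Fin n) ∈ T.image Prod.fst := h3.symm ▸ x.2
    rw [mem_image] at hx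
    obtain ⟨e, he, hex⟩ := hx
    refine ⟨⟨e.2, ?_⟩, ?_⟩
    · rw [← h4]; exact mem_image_of_mem _ he
    · rw [← hex]; exact he
  choose c hc using fun (T : {T // T ∈ Q}) => hcol T.1 T.2
  have hcinj : ∀ T : {T // T ∈ Q}, Function.Injective (c T) := by
    intro T x x' hxx
    have h1 := hc T x
    have h2 := hc T x'
    rw [hxx] at h1
    have := (hQ T.1 T.2).2.1 h1 h2 rfl
    exact Subtype.ext (Prod.mk.inj this).1
  have : Q.card = (univ : Finset {T // T ∈ Q}).card := by simp
  rw [this]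
  apply card_le_card_of_injOn (fun T => (⟨c T, hcinj T⟩ : X ↪ Y)) (fun _ _ => by simp)
  intro T _ T' _ hTT
  have hfun : c T = c T' := by
    have := congrArg (fun f : X ↪ Y => (f : X → Y)) hTT
    exact this
  have main : ∀ T T' : {T // T ∈ Q}, c T = c T' → T.1 ⊆ T'.1 := by
    intro T T' hfun e he
    obtain ⟨h1, h2, h3, h4⟩ := hQ T.1 T.2
    have hx : e.1 ∈ X := by rw [← h3]; exact mem_image_of_mem _ he
    have e1 := hc T ⟨e.1, hx⟩
    have e2 : e = (e.1, (c T ⟨e.1, hx⟩ : Fin n)) := h1 he e1 rfl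
    rw [e2, hfun]
    exact hc T' ⟨e.1, hx⟩
  exact Subtype.ext (Subset.antisymm (main T T' hfun) (main T' T hfun.symm))

/-- near pairs -/
lemma near_count (S : Finset (Fin n × Fin n)) (r k : ℕ)
    (hS1 : (S.image Prod.fst).card = r) (hS2 : (S.image Prod.snd).card = r)
    (B : Finset (Finset (Fin n × Fin n)))
    (hB : ∀ T ∈ B, Set.InjOn Prod.fst (T : Set (Fin n × Fin n)) ∧
      Set.InjOn Prod.snd (T : Set (Fin n × Fin n)) ∧ T.card = n - r ∧
      (S.image Prod.fst ∩ T.image Prod.fst).card < k ∧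
      (S.image Prod.snd ∩ T.image Prod.snd).card < k) :
    B.card ≤ (V n k) ^ 4 * (n - r)! := by
  classical
  have h1 : (B.image (fun T => (T.image Prod.fst, T.image Prod.snd))).card ≤ (V n k) ^ 4 := by
    calc (B.image (fun T => (T.image Prod.fst, T.image Prod.snd))).card
        ≤ ((B.image (fun T => T.image Prod.fst)) ×ˢ (B.image (fun T => T.image Prod.snd))).card := by
          apply card_le_card
          intro p hp
          rw [mem_image] at hp
          obtain ⟨T, hT, rfl⟩ := hp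
          rw [mem_product]
          exact ⟨mem_image_of_mem _ hT, mem_image_of_mem _ hT⟩
      _ = (B.image (fun T => T.image Prod.fst)).card * (B.image (fun T => T.image Prod.snd)).card :=
          card_product _ _
      _ ≤ (V n k * V n k) * (V n k * V n k) := by
          apply Nat.mul_le_mul
          · apply near_sets (S.image Prod.fst) r k hS1
            intro y hy
            rw [mem_image] at hy
            obtain ⟨T, hT, rfl⟩ := hy
            obtain ⟨a1, a2, a3, a4, a5⟩ := hB T hT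
            exact ⟨by rw [card_image_of_injOn a1, a3], a4⟩
          · apply near_sets (S.image Prod.snd) r k hS2
            intro y hy
            rw [mem_image] at hy
            obtain ⟨T, hT, rfl⟩ := hy
            obtain ⟨a1, a2, a3, a4, a5⟩ := hB T hT
            exact ⟨by rw [card_image_of_injOn a2, a3], a5⟩
      _ = (V n k) ^ 4 := by ring
  have h2 : B.card ≤ (n - r)! * (B.image (fun T => (T.image Prod.fst, T.image Prod.snd))).card := by
    apply Finset.card_le_mul_card_image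
    intro p hp
    rw [mem_image] at hp
    obtain ⟨T₀, hT₀, rfl⟩ := hp
    obtain ⟨a1, a2, a3, a4, a5⟩ := hB T₀ hT₀
    apply fixed_type (T₀.image Prod.fst) (T₀.image Prod.snd) (n - r)
      (by rw [card_image_of_injOn a1, a3]) (by rw [card_image_of_injOn a2, a3])
    intro T hT
    rw [mem_filter] at hT
    obtain ⟨b1, b2, b3, b4, b5⟩ := hB T hT.1
    exact ⟨b1, b2, (Prod.mk.inj hT.2).1, (Prod.mk.inj hT.2).2⟩
  calc B.card ≤ (n - r)! * (B.image (fun T => (T.image Prod.fst, T.image Prod.snd))).card := h2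
    _ ≤ (n - r)! * (V n k) ^ 4 := Nat.mul_le_mul_left _ h1
    _ = (V n k) ^ 4 * (n - r)! := mul_comm _ _

/-- Main counting lemma. -/
lemma counting (P : Finset (Equiv.Perm (Fin n))) (Rf : Equiv.Perm (Fin n) → Finset (Fin n))
    (r k : ℕ) (hrn : r ≤ n) (hk : 1 ≤ k) (hr : ∀ σ ∈ P, (Rf σ).card = r)
    (F : Finset ((Fin n × Fin n) →₀ ℕ))
    (hF : ∀ σ ∈ P, ∀ τ ∈ P, part σ (Rf σ) + part τ (Rf τ)ᶜ ∈ F)
    (hbig : 2 * (V n k) ^ 4 * (r ! * (n - r)!) ≤ P.card) :
    P.card ^ 2 * 2 ^ k ≤ 4 * n * n ! * F.card := by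
  classical
  set A := P.image (fun σ => cells σ (Rf σ)) with hA
  set B := P.image (fun σ => cells σ (Rf σ)ᶜ) with hB
  have hPA : P.card ≤ (n - r)! * A.card := fiber_bound P Rf r hr
  have hrc : ∀ σ ∈ P, ((Rf σ)ᶜ).card = n - r := by
    intro σ hσ
    rw [card_compl, Fintype.card_fin, hr σ hσ]
  have hPB : P.card ≤ r ! * B.card := by
    have := fiber_bound P (fun σ => (Rf σ)ᶜ) (n - r) hrc
    rwa [Nat.sub_sub_self hrn] at this
  have hAprop : ∀ S ∈ A, Set.InjOn Prod.fst (S : Set (Fin n × Fin n)) ∧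
      Set.InjOn Prod.snd (S : Set (Fin n × Fin n)) ∧ S.card = r := by
    intro S hS
    rw [hA, mem_image] at hS
    obtain ⟨σ, hσ, rfl⟩ := hS
    exact ⟨cells_fst_inj _ _, cells_snd_inj _ _, by rw [cells_card, hr σ hσ]⟩
  have hBprop : ∀ T ∈ B, Set.InjOn Prod.fst (T : Set (Fin n × Fin n)) ∧
      Set.InjOn Prod.snd (T : Set (Fin n × Fin n)) ∧ T.card = n - r := by
    intro T hT
    rw [hB, mem_image] at hT
    obtain ⟨σ, hσ, rfl⟩ := hT
    exact ⟨cells_fst_inj _ _, cells_snd_inj _ _, by rw [cells_card, hrc σ hσ]⟩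
  -- the sum map
  set ψ : Finset (Fin n × Fin n) × Finset (Fin n × Fin n) → ((Fin n × Fin n) →₀ ℕ) :=
    fun p => Finsupp.equivFunOnFinite.symm
      (fun e => (if e ∈ p.1 then 1 else 0) + (if e ∈ p.2 then 1 else 0)) with hψ
  have hψF : ∀ p ∈ A ×ˢ B, ψ p ∈ F := by
    intro p hp
    rw [mem_product, hA, hB, mem_image, mem_image] at hp
    obtain ⟨⟨σ, hσ, hσp⟩, τ, hτ, hτp⟩ := hp
    have : ψ p = part σ (Rf σ) + part τ (Rf τ)ᶜ := by
      ext e
      rw [Finsupp.add_apply, part_apply', part_apply', hσp, hτp]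
      rfl
    rw [this]
    exact hF σ hσ τ hτ
  -- near and far pairs
  set N := (A ×ˢ B).filter (fun p => (p.1.image Prod.fst ∩ p.2.image Prod.fst).card < k ∧
    (p.1.image Prod.snd ∩ p.2.image Prod.snd).card < k) with hN
  set F1 := (A ×ˢ B).filter (fun p => k ≤ (p.1.image Prod.fst ∩ p.2.image Prod.fst).card) with hF1
  set F2 := (A ×ˢ B).filter (fun p => k ≤ (p.1.image Prod.snd ∩ p.2.image Prod.snd).card) with hF2
  have hcover : (A ×ˢ B).card ≤ N.card + F1.card + F2.card := by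
    have : A ×ˢ B ⊆ (N ∪ F1) ∪ F2 := by
      intro p hp
      simp only [hN, hF1, hF2, mem_union, mem_filter]
      by_cases h1 : (p.1.image Prod.fst ∩ p.2.image Prod.fst).card < k
      · by_cases h2 : (p.1.image Prod.snd ∩ p.2.image Prod.snd).card < k
        · exact Or.inl (Or.inl ⟨hp, h1, h2⟩)
        · exact Or.inr ⟨hp, not_lt.1 h2⟩
      · exact Or.inl (Or.inr ⟨hp, not_lt.1 h1⟩)
    calc (A ×ˢ B).card ≤ ((N ∪ F1) ∪ F2).card := card_le_card this
      _ ≤ (N ∪ F1).card + F2.card := card_union_le _ _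
      _ ≤ N.card + F1.card + F2.card := by
          have := card_union_le N F1
          omega
  -- near
  have hNcard : N.card ≤ A.card * ((V n k) ^ 4 * (n - r)!) := by
    have h1 : N.card = ∑ S ∈ A, (N.filter (fun p => p.1 = S)).card := by
      apply card_eq_sum_card_fiberwise
      intro p hp
      rw [mem_coe, hN, mem_filter, mem_product] at hp
      exact hp.1.1
    rw [h1, ← smul_eq_mul, ← Finset.sum_const]
    refine Finset.sum_le_sum fun S hS => ?_
    obtain ⟨s1, s2, s3⟩ := hAprop S hS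
    have h2 : (N.filter (fun p => p.1 = S)).card
        ≤ (B.filter (fun T => (S.image Prod.fst ∩ T.image Prod.fst).card < k ∧
          (S.image Prod.snd ∩ T.image Prod.snd).card < k)).card := by
      apply card_le_card_of_injOn (fun p => p.2)
      · intro p hp
        rw [mem_coe, mem_filter, hN, mem_filter, mem_product] at hp
        rw [mem_coe, mem_filter]
        obtain ⟨⟨⟨_, h2⟩, h3⟩, h4⟩ := hp
        rw [← h4]
        exact ⟨h2, h3⟩
      · intro p hp q hq hpq
        rw [mem_coe, mem_filter] at hp hq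
        exact Prod.ext (hp.2.trans hq.2.symm) hpq
    refine h2.trans ?_
    apply near_count S r k (by rw [card_image_of_injOn s1, s3])
      (by rw [card_image_of_injOn s2, s3])
    intro T hT
    rw [mem_filter] at hT
    obtain ⟨t1, t2, t3⟩ := hBprop T hT.1
    exact ⟨t1, t2, t3, hT.2.1, hT.2.2⟩
  -- far
  have hfar : ∀ (π : Fin n × Fin n → Fin n)
      (_ : ∀ S ∈ A, Set.InjOn π (S : Set (Fin n × Fin n)))
      (_ : ∀ T ∈ B, Set.InjOn π (T : Set (Fin n × Fin n))),
      ((A ×ˢ B).filter (fun p => k ≤ (p.1.image π ∩ p.2.image π).card)).card * 2 ^ k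
        ≤ F.card * (n * n.choose r) := by
    intro π hπA hπB
    set G := (A ×ˢ B).filter (fun p => k ≤ (p.1.image π ∩ p.2.image π).card) with hG
    have h1 : G.card = ∑ m ∈ F, (G.filter (fun p => ψ p = m)).card := by
      apply card_eq_sum_card_fiberwise
      intro p hp
      rw [mem_coe, hG, mem_filter] at hp
      exact hψF p hp.1
    rw [h1, Finset.sum_mul, ← smul_eq_mul, ← Finset.sum_const]
    refine Finset.sum_le_sum fun m _ => ?_
    obtain ⟨enc, henc⟩ : ∃ enc : Fin n × Fin n → ℕ, Function.Injective enc :=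
      ⟨Encodable.encode, Encodable.encode_injective⟩
    apply mult π enc henc (G.filter (fun p => ψ p = m)) m r k hrn hk
    · intro p hp
      rw [mem_filter, hG, mem_filter, mem_product] at hp
      exact hπA _ hp.1.1.1
    · intro p hp
      rw [mem_filter, hG, mem_filter, mem_product] at hp
      exact hπB _ hp.1.1.2
    · intro p hp
      rw [mem_filter, hG, mem_filter, mem_product] at hp
      exact (hAprop _ hp.1.1.1).2.2
    · intro p hp
      rw [mem_filter, hG, mem_filter, mem_product] at hp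
      exact (hBprop _ hp.1.1.2).2.2
    · intro p hp e
      rw [mem_filter] at hp
      rw [← hp.2]
      rfl
    · intro p hp
      rw [mem_filter, hG, mem_filter] at hp
      exact hp.1.2
  have hF1card : F1.card * 2 ^ k ≤ F.card * (n * n.choose r) :=
    hfar Prod.fst (fun S hS => (hAprop S hS).1) (fun T hT => (hBprop T hT).1)
  have hF2card : F2.card * 2 ^ k ≤ F.card * (n * n.choose r) :=
    hfar Prod.snd (fun S hS => (hAprop S hS).2.1) (fun T hT => (hBprop T hT).2.1)
  rw [card_product] at hcover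
  -- `2 V^4 (n-r)! ≤ |B|`
  have hBbig : 2 * ((V n k) ^ 4 * (n - r)!) ≤ B.card := by
    have h1 : r ! * (2 * ((V n k) ^ 4 * (n - r)!)) ≤ r ! * B.card := by
      calc r ! * (2 * ((V n k) ^ 4 * (n - r)!)) = 2 * (V n k) ^ 4 * (r ! * (n - r)!) := by ring
        _ ≤ P.card := hbig
        _ ≤ r ! * B.card := hPB
    exact Nat.le_of_mul_le_mul_left h1 (Nat.factorial_pos r)
  have hNhalf : 2 * N.card ≤ A.card * B.card := by
    calc 2 * N.card ≤ 2 * (A.card * ((V n k) ^ 4 * (n - r)!)) := Nat.mul_le_mul_left _ hNcard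
      _ = A.card * (2 * ((V n k) ^ 4 * (n - r)!)) := by ring
      _ ≤ A.card * B.card := Nat.mul_le_mul_left _ hBbig
  have hAB : A.card * B.card * 2 ^ k ≤ 4 * (F.card * (n * n.choose r)) := by
    have h1 : A.card * B.card ≤ 2 * (F1.card + F2.card) := by omega
    calc A.card * B.card * 2 ^ k ≤ 2 * (F1.card + F2.card) * 2 ^ k := Nat.mul_le_mul_right _ h1
      _ = 2 * (F1.card * 2 ^ k + F2.card * 2 ^ k) := by ring
      _ ≤ 2 * (F.card * (n * n.choose r) + F.card * (n * n.choose r)) := by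
          apply Nat.mul_le_mul_left
          exact Nat.add_le_add hF1card hF2card
      _ = 4 * (F.card * (n * n.choose r)) := by ring
  have hchoose : n.choose r * (r ! * (n - r)!) = n ! := by
    rw [← mul_assoc]
    exact Nat.choose_mul_factorial_mul_factorial hrn
  calc P.card ^ 2 * 2 ^ k = P.card * P.card * 2 ^ k := by ring
    _ ≤ ((n - r)! * A.card) * (r ! * B.card) * 2 ^ k :=
        Nat.mul_le_mul_right _ (Nat.mul_le_mul hPA hPB)
    _ = (A.card * B.card * 2 ^ k) * (r ! * (n - r)!) := by ring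
    _ ≤ (4 * (F.card * (n * n.choose r))) * (r ! * (n - r)!) := Nat.mul_le_mul_right _ hAB
    _ = 4 * n * (n.choose r * (r ! * (n - r)!)) * F.card := by ring
    _ = 4 * n * n ! * F.card := by rw [hchoose]

end Pool.Agent.Work.MP_499dc6_lc.SizeCancel
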