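import Mathlib

set_option autoImplicit false

open scoped Pointwise

namespace Pool.Agent.Work.MP_499dc6_lc.SizeCancel

/-- The exponent vector of the permutation monomial `∏ k, X (k, σ k)`. -/
noncomputable def permMon {n : ℕ} (σ : Equiv.Perm (Fin n)) : (Fin n × Fin n) →₀ ℕ :=
  ∑ k, Finsupp.single (k, σ k) 1

/-- `g` is the sequence of polynomials computed by a straight-line arithmetic circuit with `s`
gates over `ℂ` in the variables `X (i, j)`, and `F i` is the finite set of formal monomials
(exponent vectors) of gate `i`: those of the expansion of the gate in which nothing is cancelled.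
An input gate `X j` has the single formal monomial `X j`, a nonzero constant the single formal
monomial `1`, the constant `0` none; a sum gate has those of its two summands, a product gate all
products of a formal monomial of the first factor and one of the second. -/
def IsCircuit {n s : ℕ} (g : Fin s → MvPolynomial (Fin n × Fin n) ℂ)
    (F : Fin s → Finset ((Fin n × Fin n) →₀ ℕ)) : Prop :=
  ∀ i : Fin s,
    (∃ j : Fin n × Fin n, g i = MvPolynomial.X j ∧ F i = {Finsupp.single j 1}) ∨
    (∃ a : ℂ, a ≠ 0 ∧ g i = MvPolynomial.C a ∧ F i = {0}) ∨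
    (g i = 0 ∧ F i = ∅) ∨
    (∃ a b : Fin s, a < i ∧ b < i ∧ g i = g a + g b ∧ F i = F a ∪ F b) ∨
    (∃ a b : Fin s, a < i ∧ b < i ∧ g i = g a * g b ∧ F i = F a + F b)

end Pool.Agent.Work.MP_499dc6_lc.SizeCancel
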