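import Pool.Agent.Work.MP_499dc6_lc.SizeCancel.Defs

set_option autoImplicit false

open scoped Pointwise
open Finset

namespace Pool.Agent.Work.MP_499dc6_lc.SizeCancel

variable {n s : ℕ}

/-- computed monomials are formal monomials -/
lemma support_subset {g : Fin s → MvPolynomial (Fin n × Fin n) ℂ}
    {F : Fin s → Finset ((Fin n × Fin n) →₀ ℕ)} (h : IsCircuit g F) (i : Fin s) :
    (g i).support ⊆ F i := by
  classical
  induction i using WellFoundedLT.induction with
  | _ i ih =>
    rcases h i with ⟨j, hg, hF⟩ | ⟨a, ha, hg, hF⟩ | ⟨hg, hF⟩ | ⟨a, b, ha, hb, hg, hF⟩ |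
      ⟨a, b, ha, hb, hg, hF⟩
    · rw [hg, hF, MvPolynomial.support_X]
    · rw [hg, hF]
      intro m hm
      rw [MvPolynomial.mem_support_iff, MvPolynomial.coeff_C] at hm
      rw [mem_singleton]
      by_contra hne
      exact hm (if_neg (fun h0 => hne h0.symm))
    · rw [hg, hF, MvPolynomial.support_zero]
    · rw [hg, hF]
      exact (MvPolynomial.support_add).trans (union_subset_union (ih a ha) (ih b hb))
    · rw [hg, hF]
      exact (MvPolynomial.support_mul _ _).trans (add_subset_add (ih a ha) (ih b hb))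

/-- the part of the permutation monomial of `σ` in the rows of `R` -/
noncomputable def part (σ : Equiv.Perm (Fin n)) (R : Finset (Fin n)) : (Fin n × Fin n) →₀ ℕ :=
  ∑ k ∈ R, Finsupp.single (k, σ k) 1

lemma part_apply (σ : Equiv.Perm (Fin n)) (R : Finset (Fin n)) (k l : Fin n) :
    part σ R (k, l) = if k ∈ R ∧ σ k = l then 1 else 0 := by
  classical
  unfold part
  rw [Finsupp.finsetSum_apply]
  by_cases h : k ∈ R
  · rw [Finset.sum_eq_single k]
    · simp [h, Finsupp.single_apply, Prod.mk.injEq]
    · intro b _ hb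
      rw [Finsupp.single_apply, if_neg]
      intro hc
      exact hb (Prod.mk.inj hc).1
    · intro hc
      exact absurd h hc
  · rw [if_neg (fun hc => h hc.1)]
    refine Finset.sum_eq_zero fun b hb => ?_
    rw [Finsupp.single_apply, if_neg]
    intro hc
    rw [(Prod.mk.inj hc).1] at hb
    exact h hb

lemma part_univ (σ : Equiv.Perm (Fin n)) : part σ univ = permMon σ := rfl

lemma part_add (σ : Equiv.Perm (Fin n)) {R S : Finset (Fin n)} (h : Disjoint R S) :
    part σ (R ∪ S) = part σ R + part σ S := by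
  unfold part
  rw [Finset.sum_union h]

lemma part_split (σ : Equiv.Perm (Fin n)) (R : Finset (Fin n))
    (ma mb : (Fin n × Fin n) →₀ ℕ) (h : ma + mb = part σ R) :
    ∃ S ⊆ R, ma = part σ S ∧ mb = part σ (R \ S) := by
  classical
  have key : ∀ k l, ma (k, l) + mb (k, l) = if k ∈ R ∧ σ k = l then 1 else 0 := by
    intro k l
    rw [← part_apply, ← h, Finsupp.add_apply]
  refine ⟨R.filter (fun k => ma (k, σ k) = 1), filter_subset _ _, ?_, ?_⟩
  · ext ⟨k, l⟩
    rw [part_apply]
    have hk := key k l
    by_cases hc : k ∈ R ∧ σ k = l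
    · rw [if_pos hc] at hk
      obtain ⟨h1, rfl⟩ := hc
      by_cases h2 : ma (k, σ k) = 1
      · rw [if_pos ⟨by simp [h1, h2], rfl⟩]; exact h2
      · rw [if_neg (by simp [h2])]; omega
    · rw [if_neg hc] at hk
      rw [if_neg]
      · omega
      · intro hcc
        apply hc
        simp only [mem_filter] at hcc
        exact ⟨hcc.1.1, hcc.2⟩
  · ext ⟨k, l⟩
    rw [part_apply]
    have hk := key k l
    by_cases hc : k ∈ R ∧ σ k = l
    · rw [if_pos hc] at hk
      obtain ⟨h1, rfl⟩ := hc
      by_cases h2 : ma (k, σ k) = 1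
      · rw [if_neg (by simp [h2])]; omega
      · rw [if_pos ⟨by simp [h1, h2], rfl⟩]; omega
    · rw [if_neg hc] at hk
      rw [if_neg]
      · omega
      · intro hcc
        apply hc
        simp only [mem_sdiff] at hcc
        exact ⟨hcc.1.1, hcc.2⟩

lemma part_empty_iff (σ : Equiv.Perm (Fin n)) (R : Finset (Fin n)) (h : part σ R = 0) :
    R = ∅ := by
  rw [Finset.eq_empty_iff_forall_notMem]
  intro k hk
  have h1 := part_apply σ R k (σ k)
  rw [h, if_pos ⟨hk, rfl⟩] at h1
  simp at h1

lemma card_of_part_eq_single (σ : Equiv.Perm (Fin n)) (R : Finset (Fin n)) (j : Fin n × Fin n)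
    (h : part σ R = Finsupp.single j 1) : R.card ≤ 1 := by
  rw [Finset.card_le_one]
  intro a ha b hb
  have h1 := part_apply σ R a (σ a)
  rw [h, if_pos ⟨ha, rfl⟩, Finsupp.single_apply] at h1
  have h2 := part_apply σ R b (σ b)
  rw [h, if_pos ⟨hb, rfl⟩, Finsupp.single_apply] at h2
  split_ifs at h1 with h3
  split_ifs at h2 with h4
  rw [h3] at h4
  exact (Prod.mk.inj h4).1

/-- Descent to a gate of balanced degree. -/
lemma descent {g : Fin s → MvPolynomial (Fin n × Fin n) ℂ}
    {F : Fin s → Finset ((Fin n × Fin n) →₀ ℕ)} (h : IsCircuit g F) (hn : 2 ≤ n) (o : Fin s)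
    (σ : Equiv.Perm (Fin n)) (i : Fin s) :
    ∀ R : Finset (Fin n), part σ R ∈ F i → (∀ m ∈ F i, m + part σ Rᶜ ∈ F o) → n < 3 * R.card →
      ∃ v : Fin s, ∃ R' : Finset (Fin n), part σ R' ∈ F v ∧
        (∀ m ∈ F v, m + part σ R'ᶜ ∈ F o) ∧ n < 3 * R'.card ∧ 3 * R'.card ≤ 2 * n := by
  classical
  induction i using WellFoundedLT.induction with
  | _ i ih =>
    intro R hR hctx hlt
    by_cases hle : 3 * R.card ≤ 2 * n
    · exact ⟨i, R, hR, hctx, hlt, hle⟩
    push Not at hle
    rcases h i with ⟨j, hg, hF⟩ | ⟨a, ha, hg, hF⟩ | ⟨hg, hF⟩ | ⟨a, b, ha, hb, hg, hF⟩ |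
      ⟨a, b, ha, hb, hg, hF⟩
    · rw [hF, mem_singleton] at hR
      have := card_of_part_eq_single σ R j hR
      omega
    · rw [hF, mem_singleton] at hR
      have := part_empty_iff σ R hR
      rw [this] at hlt
      simp at hlt
    · rw [hF] at hR
      simp at hR
    · rw [hF] at hR hctx
      rw [mem_union] at hR
      rcases hR with hR | hR
      · exact ih a ha R hR (fun m hm => hctx m (mem_union_left _ hm)) hlt
      · exact ih b hb R hR (fun m hm => hctx m (mem_union_right _ hm)) hlt
    · rw [hF] at hR hctx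
      rw [mem_add] at hR
      obtain ⟨ma, hma, mb, hmb, hab⟩ := hR
      obtain ⟨S, hSR, rfl, rfl⟩ := part_split σ R ma mb hab
      have hcard : S.card + (R \ S).card = R.card := by
        rw [add_comm]; exact card_sdiff_add_card_eq_card hSR
      -- complements
      have hc1 : Sᶜ = (R \ S) ∪ Rᶜ := by
        ext x
        simp only [mem_compl, mem_union, mem_sdiff]
        have := @hSR x
        tauto
      have hd1 : Disjoint (R \ S) Rᶜ := by
        rw [Finset.disjoint_left]
        intro x hx hx'
        rw [mem_sdiff] at hx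
        rw [mem_compl] at hx'
        exact hx' hx.1
      have hc2 : (R \ S)ᶜ = S ∪ Rᶜ := by
        ext x
        simp only [mem_compl, mem_union, mem_sdiff]
        have := @hSR x
        tauto
      have hd2 : Disjoint S Rᶜ := by
        rw [Finset.disjoint_left]
        intro x hx hx'
        rw [mem_compl] at hx'
        exact hx' (hSR hx)
      by_cases hbig : n < 3 * S.card
      · refine ih a ha S hma ?_ hbig
        intro m hm
        rw [hc1, part_add σ hd1, ← add_assoc]
        exact hctx _ (add_mem_add hm hmb)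
      · refine ih b hb (R \ S) hmb ?_ (by omega)
        intro m hm
        rw [hc2, part_add σ hd2, ← add_assoc, add_comm m]
        exact hctx _ (add_mem_add hma hm)

/-- Every permutation monomial splits at a gate of balanced degree. -/
lemma exists_split {g : Fin s → MvPolynomial (Fin n × Fin n) ℂ}
    {F : Fin s → Finset ((Fin n × Fin n) →₀ ℕ)} (h : IsCircuit g F) (hn : 2 ≤ n) (o : Fin s)
    (σ : Equiv.Perm (Fin n)) (hσ : permMon σ ∈ F o) :
    ∃ v : Fin s, ∃ R : Finset (Fin n), part σ R ∈ F v ∧
        (∀ m ∈ F v, m + part σ Rᶜ ∈ F o) ∧ n < 3 * R.card ∧ 3 * R.card ≤ 2 * n := by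
  classical
  refine descent h hn o σ o univ (by rw [part_univ]; exact hσ) ?_ ?_
  · intro m hm
    have : part σ (univ : Finset (Fin n))ᶜ = 0 := by simp [part]
    rw [this, add_zero]
    exact hm
  · rw [card_univ, Fintype.card_fin]
    omega

end Pool.Agent.Work.MP_499dc6_lc.SizeCancel
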