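import Pool.Agent.Work.MP_499dc6_lc.SizeCancel.Count

set_option autoImplicit false

open Finset Filter
open scoped Nat Topology

namespace Pool.Agent.Work.MP_499dc6_lc.SizeCancel

variable {n s : ℕ}

/-- pigeonhole: some fibre has at least the average size -/
lemma exists_big_fiber {α β : Type*} [Fintype α] [Fintype β] [DecidableEq β] [Nonempty β]
    (f : α → β) : ∃ y, Fintype.card α ≤ (univ.filter (fun x => f x = y)).card * Fintype.card β := by
  by_contra hcon
  push Not at hcon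
  have h1 : Fintype.card α = ∑ y : β, (univ.filter (fun x => f x = y)).card := by
    rw [← Finset.card_univ]
    exact card_eq_sum_card_fiberwise (fun _ _ => by simp)
  have h2 : ∑ y : β, (univ.filter (fun x => f x = y)).card * Fintype.card β
      < ∑ _y : β, Fintype.card α :=
    Finset.sum_lt_sum_of_nonempty univ_nonempty (fun y _ => hcon y)
  rw [← Finset.sum_mul, ← h1, Finset.sum_const, smul_eq_mul, Finset.card_univ, mul_comm] at h2
  exact lt_irrefl _ h2

/-- Non-asymptotic form of the trade-off. -/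
lemma tradeoff {g : Fin s → MvPolynomial (Fin n × Fin n) ℂ}
    {F : Fin s → Finset ((Fin n × Fin n) →₀ ℕ)} (h : IsCircuit g F) (hn : 2 ≤ n) (o : Fin s)
    (ho : ∀ σ : Equiv.Perm (Fin n), permMon σ ∈ F o) (k : ℕ) (hk : 1 ≤ k)
    (hV : ∀ r, n < 3 * r → 3 * r ≤ 2 * n → 2 * (V n k) ^ 4 * (s * (n + 1)) ≤ n.choose r) :
    n ! * 2 ^ k ≤ 4 * n * (n + 1) ^ 2 * s ^ 2 * (F o).card := by
  classical
  have hsplit := fun σ => exists_split h hn o σ (ho σ)
  choose v Rf h1 h2 h3 h4 using hsplit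
  have hcardR : ∀ σ, (Rf σ).card < n + 1 := by
    intro σ
    have := card_le_univ (Rf σ)
    rw [Fintype.card_fin] at this
    omega
  have : Nonempty (Fin s × Fin (n + 1)) := ⟨(o, 0)⟩
  obtain ⟨⟨w, r⟩, hwr⟩ := exists_big_fiber
    (fun σ : Equiv.Perm (Fin n) => ((v σ, ⟨(Rf σ).card, hcardR σ⟩) : Fin s × Fin (n + 1)))
  rw [Fintype.card_perm, Fintype.card_fin, Fintype.card_prod, Fintype.card_fin,
    Fintype.card_fin] at hwr
  set P := univ.filter (fun σ : Equiv.Perm (Fin n) =>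
    ((v σ, ⟨(Rf σ).card, hcardR σ⟩) : Fin s × Fin (n + 1)) = (w, r)) with hP
  have hPmem : ∀ σ ∈ P, v σ = w ∧ (Rf σ).card = (r : ℕ) := by
    intro σ hσ
    rw [hP, mem_filter, Prod.mk.injEq] at hσ
    exact ⟨hσ.2.1, congrArg Fin.val hσ.2.2⟩
  have hPne : P.Nonempty := by
    rw [← card_pos]
    by_contra hc
    have : P.card = 0 := by omega
    rw [this, zero_mul] at hwr
    have := Nat.factorial_pos n
    omega
  obtain ⟨σ₀, hσ₀⟩ := hPne
  have hr1 : n < 3 * (r : ℕ) := by rw [← (hPmem σ₀ hσ₀).2]; exact h3 σ₀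
  have hr2 : 3 * (r : ℕ) ≤ 2 * n := by rw [← (hPmem σ₀ hσ₀).2]; exact h4 σ₀
  have hrn : (r : ℕ) ≤ n := by omega
  have hch := hV r hr1 hr2
  have hfact := Nat.choose_mul_factorial_mul_factorial hrn
  have hspos : 0 < s * (n + 1) := Nat.mul_pos (Fin.pos o) (Nat.succ_pos n)
  have hbig : 2 * (V n k) ^ 4 * ((r : ℕ)! * (n - r)!) ≤ P.card := by
    have e1 : (2 * (V n k) ^ 4 * ((r : ℕ)! * (n - r)!)) * (s * (n + 1)) ≤ P.card * (s * (n + 1)) := by
      calc (2 * (V n k) ^ 4 * ((r : ℕ)! * (n - r)!)) * (s * (n + 1))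
          = (2 * (V n k) ^ 4 * (s * (n + 1))) * ((r : ℕ)! * (n - r)!) := by ring
        _ ≤ n.choose r * ((r : ℕ)! * (n - r)!) := Nat.mul_le_mul_right _ hch
        _ = n ! := by rw [← mul_assoc]; exact hfact
        _ ≤ P.card * (s * (n + 1)) := hwr
    exact Nat.le_of_mul_le_mul_right e1 hspos
  have hcount := counting P Rf r k hrn hk (fun σ hσ => (hPmem σ hσ).2) (F o) ?_ hbig
  · have e2 : n ! * (n ! * 2 ^ k) ≤ n ! * (4 * n * (n + 1) ^ 2 * s ^ 2 * (F o).card) := by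
      calc n ! * (n ! * 2 ^ k) = n ! * n ! * 2 ^ k := by ring
        _ ≤ (P.card * (s * (n + 1))) * (P.card * (s * (n + 1))) * 2 ^ k := by
            apply Nat.mul_le_mul_right
            exact Nat.mul_le_mul hwr hwr
        _ = (P.card ^ 2 * 2 ^ k) * (s ^ 2 * (n + 1) ^ 2) := by ring
        _ ≤ (4 * n * n ! * (F o).card) * (s ^ 2 * (n + 1) ^ 2) := Nat.mul_le_mul_right _ hcount
        _ = n ! * (4 * n * (n + 1) ^ 2 * s ^ 2 * (F o).card) := by ring
    exact Nat.le_of_mul_le_mul_left e2 (Nat.factorial_pos n)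
  · intro σ hσ τ hτ
    have e1 := h1 σ
    rw [(hPmem σ hσ).1, ← (hPmem τ hτ).1] at e1
    exact h2 τ _ e1

/-- upper bound for the number of small sets -/
lemma V_le (n k : ℕ) (hk : 40 * k ≤ n) : (V n k : ℝ) ≤ (9 / 8 : ℝ) ^ n := by
  classical
  have h1 : (V n k : ℝ) ≤ 39 ^ k * (40 / 39 : ℝ) ^ n := by
    have e1 : (V n k : ℝ) = ∑ Z ∈ (univ : Finset (Finset (Fin n))).filter (fun Z => Z.card < k),
        (1 : ℝ) := by
      unfold V
      simp
    have e2 : ∑ Z ∈ (univ : Finset (Finset (Fin n))).filter (fun Z => Z.card < k), (1 : ℝ)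
        ≤ ∑ Z ∈ (univ : Finset (Finset (Fin n))).filter (fun Z => Z.card < k),
          39 ^ k * ((1 / 39 : ℝ) ^ Z.card * 1 ^ (n - Z.card)) := by
      refine Finset.sum_le_sum fun Z hZ => ?_
      rw [mem_filter] at hZ
      rw [one_pow, mul_one]
      have hlt : Z.card ≤ k := hZ.2.le
      calc (1 : ℝ) = 39 ^ Z.card * (1 / 39) ^ Z.card := by
            rw [← mul_pow]; norm_num
        _ ≤ 39 ^ k * (1 / 39) ^ Z.card := by
            apply mul_le_mul_of_nonneg_right _ (by positivity)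
            exact pow_le_pow_right₀ (by norm_num) hlt
    have e3 : ∑ Z ∈ (univ : Finset (Finset (Fin n))).filter (fun Z => Z.card < k),
          39 ^ k * ((1 / 39 : ℝ) ^ Z.card * 1 ^ (n - Z.card))
        ≤ ∑ Z ∈ (univ : Finset (Finset (Fin n))),
          39 ^ k * ((1 / 39 : ℝ) ^ Z.card * 1 ^ (n - Z.card)) := by
      apply Finset.sum_le_sum_of_subset_of_nonneg (filter_subset _ _)
      intro Z _ _
      positivity
    have e4 : ∑ Z ∈ (univ : Finset (Finset (Fin n))),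
          (39 : ℝ) ^ k * ((1 / 39 : ℝ) ^ Z.card * 1 ^ (n - Z.card)) = 39 ^ k * (40 / 39 : ℝ) ^ n := by
      rw [← Finset.mul_sum]
      have := Finset.sum_pow_mul_eq_add_pow (1 / 39 : ℝ) 1 (univ : Finset (Fin n))
      rw [Finset.card_univ, Fintype.card_fin, powerset_univ] at this
      rw [this]
      norm_num
    rw [e1]
    exact (e2.trans e3).trans (le_of_eq e4)
  have h2 : (39 ^ k * (40 / 39 : ℝ) ^ n) ^ 40 ≤ ((9 / 8 : ℝ) ^ n) ^ 40 := by
    calc ((39 : ℝ) ^ k * (40 / 39 : ℝ) ^ n) ^ 40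
        = 39 ^ (40 * k) * ((40 / 39 : ℝ) ^ 40) ^ n := by
          rw [mul_pow, ← pow_mul, ← pow_mul, ← pow_mul, mul_comm k 40, mul_comm n 40]
      _ ≤ 39 ^ n * ((40 / 39 : ℝ) ^ 40) ^ n := by
          apply mul_le_mul_of_nonneg_right _ (by positivity)
          exact pow_le_pow_right₀ (by norm_num) hk
      _ = (39 * (40 / 39 : ℝ) ^ 40) ^ n := by rw [mul_pow]
      _ ≤ ((9 / 8 : ℝ) ^ 40) ^ n := by
          apply pow_le_pow_left₀ (by positivity)
          norm_num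
      _ = ((9 / 8 : ℝ) ^ n) ^ 40 := by rw [← pow_mul, ← pow_mul, mul_comm]
  have h3 : 39 ^ k * (40 / 39 : ℝ) ^ n ≤ (9 / 8 : ℝ) ^ n :=
    (pow_le_pow_iff_left₀ (by positivity) (by positivity) (by norm_num)).1 h2
  exact h1.trans h3

lemma choose_three_succ (q : ℕ) :
    (3 * (q + 1)).choose (q + 1) * ((2 * q + 2) * (2 * q + 1))
      = 3 * ((3 * q).choose q * ((3 * q + 2) * (3 * q + 1))) := by
  have h1 := Nat.choose_mul_factorial_mul_factorial (show q ≤ 3 * q by omega)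
  have h2 := Nat.choose_mul_factorial_mul_factorial (show q + 1 ≤ 3 * (q + 1) by omega)
  have e1 : 3 * q - q = 2 * q := by omega
  have e2 : 3 * (q + 1) - (q + 1) = 2 * q + 2 := by omega
  rw [e1] at h1
  rw [e2] at h2
  have f1 : (q + 1)! = (q + 1) * q ! := Nat.factorial_succ q
  have f2 : (2 * q + 2)! = (2 * q + 2) * ((2 * q + 1) * (2 * q)!) := by
    rw [Nat.factorial_succ, Nat.factorial_succ]
  have f3 : (3 * (q + 1))! = (3 * q + 3) * ((3 * q + 2) * ((3 * q + 1) * (3 * q)!)) := by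
    rw [show 3 * (q + 1) = 3 * q + 3 by ring, Nat.factorial_succ, Nat.factorial_succ,
      Nat.factorial_succ]
  rw [f1, f2, f3, ← h1] at h2
  have hpos : 0 < (q + 1) * (q ! * (2 * q)!) :=
    Nat.mul_pos (Nat.succ_pos q) (Nat.mul_pos (Nat.factorial_pos _) (Nat.factorial_pos _))
  apply Nat.eq_of_mul_eq_mul_left hpos
  calc (q + 1) * (q ! * (2 * q)!) * ((3 * (q + 1)).choose (q + 1) * ((2 * q + 2) * (2 * q + 1)))
      = (3 * (q + 1)).choose (q + 1) * ((q + 1) * q !)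
        * ((2 * q + 2) * ((2 * q + 1) * (2 * q)!)) := by ring
    _ = (3 * q + 3) * ((3 * q + 2) * ((3 * q + 1) * ((3 * q).choose q * q ! * (2 * q)!))) := h2
    _ = (q + 1) * (q ! * (2 * q)!) * (3 * ((3 * q).choose q * ((3 * q + 2) * (3 * q + 1)))) := by
        ring

lemma choose_three_lower (q : ℕ) :
    3 * (27 / 4 : ℝ) ^ q ≤ ((3 * (q + 1)).choose (q + 1) : ℝ) * (q + 1) := by
  induction q with
  | zero => norm_num
  | succ q ih =>
    have h := choose_three_succ (q + 1)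
    have h' : ((3 * (q + 1 + 1)).choose (q + 1 + 1) : ℝ) * ((2 * (q + 1) + 2) * (2 * (q + 1) + 1))
      = 3 * (((3 * (q + 1)).choose (q + 1) : ℝ) * ((3 * (q + 1) + 2) * (3 * (q + 1) + 1))) := by
      exact_mod_cast h
    set a := ((3 * (q + 1)).choose (q + 1) : ℝ) with ha
    set b := ((3 * (q + 1 + 1)).choose (q + 1 + 1) : ℝ) with hb
    have ha0 : 0 ≤ a := Nat.cast_nonneg _
    have hb0 : 0 ≤ b := Nat.cast_nonneg _
    have hq0 : (0 : ℝ) ≤ q := Nat.cast_nonneg _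
    -- `b (q+2) ≥ (27/4) a (q+1)`
    have key : (27 / 4) * (a * (q + 1)) ≤ b * (q + 2) := by
      have hd : (0 : ℝ) < 2 * (2 * (q + 1) + 1) := by positivity
      have h'' : (b * (q + 2)) * (2 * (2 * (q + 1) + 1))
          = 3 * (a * ((3 * (q + 1) + 2) * (3 * (q + 1) + 1))) := by
        rw [← h']; ring
      rw [← mul_le_mul_iff_left₀ hd, h'']
      nlinarith [mul_nonneg ha0 hq0]
    rw [pow_succ]
    push_cast
    calc 3 * ((27 / 4 : ℝ) ^ q * (27 / 4)) = (27 / 4) * (3 * (27 / 4 : ℝ) ^ q) := by ring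
      _ ≤ (27 / 4) * (a * (q + 1)) := by
          apply mul_le_mul_of_nonneg_left ih (by norm_num)
      _ ≤ b * (q + 2) := key
      _ = b * (q + 1 + 1) := by ring

/-- unimodality -/
lemma choose_mono_half {n a b : ℕ} (hab : a ≤ b) (hb : 2 * b ≤ n) : n.choose a ≤ n.choose b := by
  induction b with
  | zero =>
    have : a = 0 := by omega
    rw [this]
  | succ b ih =>
    rcases Nat.lt_or_ge b a with h | h
    · have : a = b + 1 := by omega
      rw [this]
    · exact (ih h (by omega)).trans (Nat.choose_le_succ_of_lt_half_left (by omega))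

lemma choose_lower (n r : ℕ) (hn : 3 ≤ n) (h1 : n < 3 * r) (h2 : 3 * r ≤ 2 * n) :
    (15 / 8 : ℝ) ^ n ≤ 24 * n * n.choose r := by
  obtain ⟨q, hq⟩ : ∃ q, n / 3 = q + 1 := ⟨n / 3 - 1, by omega⟩
  have hq3 : 3 * (q + 1) ≤ n := by omega
  have hq4 : n ≤ 3 * q + 5 := by omega
  have hc1 : (3 * (q + 1)).choose (q + 1) ≤ n.choose (q + 1) := Nat.choose_le_choose _ hq3
  have hc2 : n.choose (q + 1) ≤ n.choose r := by
    by_cases hr : 2 * r ≤ n
    · exact choose_mono_half (by omega) hr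
    · rw [← Nat.choose_symm (show r ≤ n by omega)]
      exact choose_mono_half (by omega) (by omega)
  have hc : ((3 * (q + 1)).choose (q + 1) : ℝ) ≤ (n.choose r : ℝ) := by
    exact_mod_cast hc1.trans hc2
  have h3 := choose_three_lower q
  have h4 : (15 / 8 : ℝ) ^ n ≤ (15 / 8 : ℝ) ^ (3 * q + 5) := pow_le_pow_right₀ (by norm_num) hq4
  have h5 : (15 / 8 : ℝ) ^ (3 * q + 5) = ((15 / 8 : ℝ) ^ 3) ^ q * (15 / 8) ^ 5 := by
    rw [pow_add, pow_mul]
  have h6 : ((15 / 8 : ℝ) ^ 3) ^ q ≤ (27 / 4 : ℝ) ^ q :=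
    pow_le_pow_left₀ (by positivity) (by norm_num) q
  have hqn : (q : ℝ) + 1 ≤ n := by
    have : q + 1 ≤ n := by omega
    exact_mod_cast this
  calc (15 / 8 : ℝ) ^ n ≤ ((15 / 8 : ℝ) ^ 3) ^ q * (15 / 8) ^ 5 := h4.trans (le_of_eq h5)
    _ ≤ (27 / 4 : ℝ) ^ q * (15 / 8) ^ 5 := by
        apply mul_le_mul_of_nonneg_right h6 (by positivity)
    _ ≤ (27 / 4 : ℝ) ^ q * 72 := by
        apply mul_le_mul_of_nonneg_left _ (by positivity)
        norm_num
    _ = 24 * (3 * (27 / 4 : ℝ) ^ q) := by ring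
    _ ≤ 24 * (((3 * (q + 1)).choose (q + 1) : ℝ) * (q + 1)) := by linarith
    _ ≤ 24 * ((n.choose r : ℝ) * n) := by
        apply mul_le_mul_of_nonneg_left _ (by norm_num)
        apply mul_le_mul hc hqn (by positivity) (by positivity)
    _ = 24 * n * n.choose r := by ring

/-- The trade-off theorem. -/
theorem main : ∀ᶠ n : ℕ in atTop, ∀ (f : MvPolynomial (Fin n × Fin n) ℂ),
    (∀ σ : Equiv.Perm (Fin n), f.coeff (permMon σ) ≠ 0) →
    ∀ (s : ℕ) (g : Fin s → MvPolynomial (Fin n × Fin n) ℂ)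
      (F : Fin s → Finset ((Fin n × Fin n) →₀ ℕ)), IsCircuit g F → ∀ o : Fin s, g o = f →
      (2 : ℝ) ^ ((n : ℝ) / 200) ≤ s ∨
      (2 : ℝ) ^ ((n : ℝ) / 100) * (n ! : ℝ) ≤ ((F o).card : ℝ) := by
  set β : ℝ := (2 : ℝ) ^ ((1 : ℝ) / 200) with hβ
  have hβ200 : β ^ 200 = 2 := by
    rw [hβ, ← Real.rpow_natCast, ← Real.rpow_mul (by norm_num)]
    norm_num
  have hβ0 : 0 < β := Real.rpow_pos_of_pos (by norm_num) _
  have hβ1 : 1 < β := by
    rw [hβ]
    exact Real.one_lt_rpow (by norm_num) (by norm_num)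
  have hβle : β ≤ 1.005 := by
    by_contra hc
    push Not at hc
    have h1 : (1.005 : ℝ) ^ 200 < β ^ 200 := pow_lt_pow_left₀ hc (by norm_num) (by norm_num)
    have h2 := one_add_mul_le_pow (show (-2 : ℝ) ≤ 0.005 by norm_num) 200
    rw [hβ200] at h1
    linarith
  have hpow : ∀ (n : ℕ), (2 : ℝ) ^ ((n : ℝ) / 200) = β ^ n := by
    intro n
    rw [hβ, ← Real.rpow_natCast, ← Real.rpow_mul (by norm_num)]
    congr 1
    ring
  have hpow2 : ∀ (n : ℕ), (2 : ℝ) ^ ((n : ℝ) / 100) = (β ^ n) ^ 2 := by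
    intro n
    rw [← hpow, ← Real.rpow_natCast, ← Real.rpow_mul (by norm_num)]
    congr 1
    push_cast
    ring
  -- first asymptotic inequality
  set ρ : ℝ := (9 / 8 : ℝ) ^ 4 * β * (8 / 15) with hρ
  have hρ0 : 0 ≤ ρ := by positivity
  have hρ1 : ρ < 1 := by
    rw [hρ]
    nlinarith
  have hlim1 := tendsto_pow_const_mul_const_pow_of_abs_lt_one 2 (r := ρ)
    (by rw [abs_of_nonneg hρ0]; exact hρ1)
  have hlim2 := tendsto_pow_const_mul_const_pow_of_abs_lt_one 3 (r := β⁻¹)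
    (by rw [abs_of_pos (inv_pos.2 hβ0)]; exact inv_lt_one_of_one_lt₀ hβ1)
  filter_upwards [hlim1.eventually_lt_const (show (0 : ℝ) < 1 / 96 by norm_num),
    hlim2.eventually_lt_const (show (0 : ℝ) < 1 / 32 by norm_num), eventually_ge_atTop 40]
    with n hn1 hn2 hn40
  intro f hf s g F hC o ho
  by_contra hcon
  push Not at hcon
  obtain ⟨hs, hF⟩ := hcon
  rw [hpow] at hs
  rw [hpow2] at hF
  have hn0 : (1 : ℝ) ≤ n := by exact_mod_cast (by omega : 1 ≤ n)
  have hmem : ∀ σ : Equiv.Perm (Fin n), permMon σ ∈ F o := by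
    intro σ
    apply support_subset hC o
    rw [MvPolynomial.mem_support_iff, ho]
    exact hf σ
  set k : ℕ := n / 40 with hk
  have hk1 : 1 ≤ k := by omega
  have hk40 : 40 * k ≤ n := by omega
  have hk41 : n ≤ 40 * k + 39 := by omega
  have hV := V_le n k hk40
  have hmain := tradeoff hC (by omega) o hmem k hk1 ?_
  · -- contradiction with `hF`
    have hm : (n ! : ℝ) * 2 ^ k ≤ 4 * n * (n + 1) ^ 2 * s ^ 2 * (F o).card := by
      exact_mod_cast hmain
    have hfac : (0 : ℝ) < (n ! : ℝ) := by exact_mod_cast Nat.factorial_pos n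
    have hβn : 0 < β ^ n := by positivity
    -- `β^(5n) ≤ 2 * 2^k`
    have hk2 : (β ^ n) ^ 5 ≤ 2 * 2 ^ k := by
      calc (β ^ n) ^ 5 = β ^ (5 * n) := by rw [← pow_mul, mul_comm]
        _ ≤ β ^ (200 * (k + 1)) := pow_le_pow_right₀ hβ1.le (by omega)
        _ = 2 ^ (k + 1) := by rw [pow_mul, hβ200]
        _ = 2 * 2 ^ k := by ring
    have hs2 : (s : ℝ) ^ 2 ≤ (β ^ n) ^ 2 := pow_le_pow_left₀ (Nat.cast_nonneg _) hs.le 2
    have h1 : (n ! : ℝ) * (β ^ n) ^ 5 ≤ 8 * n * (n + 1) ^ 2 * (β ^ n) ^ 2 * ((β ^ n) ^ 2 * n !) := by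
      calc (n ! : ℝ) * (β ^ n) ^ 5 ≤ n ! * (2 * 2 ^ k) :=
            mul_le_mul_of_nonneg_left hk2 hfac.le
        _ = 2 * (n ! * 2 ^ k) := by ring
        _ ≤ 2 * (4 * n * (n + 1) ^ 2 * s ^ 2 * (F o).card) := by linarith
        _ ≤ 2 * (4 * n * (n + 1) ^ 2 * (β ^ n) ^ 2 * ((β ^ n) ^ 2 * n !)) := by
            apply mul_le_mul_of_nonneg_left _ (by norm_num)
            apply mul_le_mul _ hF.le (Nat.cast_nonneg _) (by positivity)
            apply mul_le_mul_of_nonneg_left hs2 (by positivity)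
        _ = _ := by ring
    have h2 : β ^ n ≤ 8 * n * (n + 1) ^ 2 := by
      have h3 : ((β ^ n) ^ 4 * n !) * β ^ n ≤ ((β ^ n) ^ 4 * n !) * (8 * n * (n + 1) ^ 2) := by
        calc ((β ^ n) ^ 4 * (n ! : ℝ)) * β ^ n = n ! * (β ^ n) ^ 5 := by ring
          _ ≤ _ := h1
          _ = _ := by ring
      exact le_of_mul_le_mul_left h3 (by positivity)
    have h4 : β ^ n ≤ 32 * (n : ℝ) ^ 3 := by
      refine h2.trans ?_
      have : ((n : ℝ) + 1) ^ 2 ≤ (2 * n) ^ 2 := by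
        apply pow_le_pow_left₀ (by positivity)
        linarith
      calc 8 * (n : ℝ) * (n + 1) ^ 2 ≤ 8 * n * (2 * n) ^ 2 := by
            apply mul_le_mul_of_nonneg_left this (by positivity)
        _ = 32 * (n : ℝ) ^ 3 := by ring
    rw [inv_pow] at hn2
    have h5 : (n : ℝ) ^ 3 < 1 / 32 * β ^ n := by
      have := mul_lt_mul_of_pos_right hn2 hβn
      rwa [mul_assoc, inv_mul_cancel₀ hβn.ne', mul_one] at this
    linarith
  · -- the hypothesis on `V`
    intro r hr1 hr2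
    have hch := choose_lower n r (by omega) hr1 hr2
    have hgoal : (2 * (V n k) ^ 4 * (s * (n + 1)) : ℝ) ≤ n.choose r := by
      have hV4 : (V n k : ℝ) ^ 4 ≤ ((9 / 8 : ℝ) ^ n) ^ 4 :=
        pow_le_pow_left₀ (Nat.cast_nonneg _) hV 4
      have h1 : (2 * (V n k) ^ 4 * (s * (n + 1)) : ℝ)
          ≤ 2 * ((9 / 8 : ℝ) ^ n) ^ 4 * (β ^ n * (2 * n)) := by
        apply mul_le_mul
        · apply mul_le_mul_of_nonneg_left hV4 (by norm_num)
        · apply mul_le_mul hs.le _ (by positivity) (by positivity)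
          linarith
        · positivity
        · positivity
      have h2 : 2 * ((9 / 8 : ℝ) ^ n) ^ 4 * (β ^ n * (2 * n)) = 4 * n * (ρ ^ n * (15 / 8) ^ n) := by
        rw [← mul_pow, hρ]
        have : (9 / 8 : ℝ) ^ 4 * β * (8 / 15) * (15 / 8) = (9 / 8 : ℝ) ^ 4 * β := by ring
        rw [this, mul_pow, ← pow_mul, ← pow_mul, mul_comm n 4]
        ring
      rw [h2] at h1
      refine h1.trans ?_
      have h3 : (n : ℝ) ^ 2 * ρ ^ n ≤ 1 / 96 := hn1.le
      have hn0' : (0 : ℝ) < n := by linarith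
      have h4 : n * (4 * n * (ρ ^ n * (15 / 8 : ℝ) ^ n)) ≤ n * (n.choose r : ℝ) := by
        calc n * (4 * n * (ρ ^ n * (15 / 8 : ℝ) ^ n))
            = 4 * ((n : ℝ) ^ 2 * ρ ^ n) * (15 / 8 : ℝ) ^ n := by ring
          _ ≤ 4 * (1 / 96) * (15 / 8 : ℝ) ^ n := by
              apply mul_le_mul_of_nonneg_right _ (by positivity)
              linarith
          _ ≤ 4 * (1 / 96) * (24 * n * n.choose r) := by
              apply mul_le_mul_of_nonneg_left hch (by norm_num)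
          _ = n * (n.choose r : ℝ) := by ring
      exact le_of_mul_le_mul_left h4 hn0'
    exact_mod_cast hgoal

end Pool.Agent.Work.MP_499dc6_lc.SizeCancel
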